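import Pool.Agent.MP_8fd344_co.Mg.Reg_Main

namespace Pool.Agent.Results.MP_8fd344_co.RegularNotSpectral

open Pool.Agent.MP_8fd344_co

/-- There are cospectral sequences of connected `q`-regular bipartite graphs with both classes of
size `q ^ 2` (`q = 4 ^ (n + 3)`) such that exactly one has the quasirandom log-limit. -/
theorem result : ∃ G G' : ℕ → BG,
    (∀ n, (G n).E.Nonempty ∧ (G' n).E.Nonempty ∧
      Fintype.card (G n).V1 = (4 ^ (n + 3)) ^ 2 ∧ Fintype.card (G n).V2 = (4 ^ (n + 3)) ^ 2 ∧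
      Fintype.card (G' n).V1 = (4 ^ (n + 3)) ^ 2 ∧ Fintype.card (G' n).V2 = (4 ^ (n + 3)) ^ 2 ∧
      IsRegularOf (G n) (4 ^ (n + 3)) ∧ IsRegularOf (G' n) (4 ^ (n + 3)) ∧
      (toGraph (G n)).Connected ∧ (toGraph (G' n)).Connected ∧ spec (G n) = spec (G' n)) ∧
    HasQuasirandomLogLimit G ∧ ¬ HasQuasirandomLogLimit G' :=
  Reg.main_result

end Pool.Agent.Results.MP_8fd344_co.RegularNotSpectral
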